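import Pool.Agent.Work.MP_76e8a0_lc.Defs

-- merged part: Pool.Agent.Work.MP_76e8a0_lc.Club
section
/-!
Elementary club lemmas, good points and the pairing function.
-/

open Cardinal Order Set

universe u

namespace Pool.Agent.DiaSing

theorem Accum.mono {α : Ordinal.{u}} {Q Q' : Set Ordinal.{u}} (h : Accum α Q) (hQ : Q ⊆ Q') :
    Accum α Q' :=
  ⟨h.1, fun γ hγ => let ⟨β, hβ, h1⟩ := h.2 γ hγ; ⟨β, hQ hβ, h1⟩⟩

theorem Accum.lim {α : Ordinal.{u}} {Q : Set Ordinal.{u}} (h : Accum α Q) : IsSuccLimit α := by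
  rw [Ordinal.isSuccLimit_iff]
  refine ⟨h.1, isSuccPrelimit_of_succ_lt fun γ hγ => ?_⟩
  obtain ⟨β, -, h1, h2⟩ := h.2 γ hγ
  exact (succ_le_of_lt h1).trans_lt h2

theorem lim_add_one {α γ : Ordinal.{u}} (h : IsSuccLimit α) (hγ : γ < α) : γ + 1 < α := by
  have := h.succ_lt hγ
  rwa [succ_eq_add_one] at this

theorem Accum.tail {α i : Ordinal.{u}} {Q Q' : Set Ordinal.{u}} (h : Accum α Q) (hi : i < α)
    (hQ : ∀ β ∈ Q, i < β → β < α → β ∈ Q') : Accum α Q' := by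
  refine ⟨h.1, fun γ hγ => ?_⟩
  obtain ⟨β, hβ, h1, h2⟩ := h.2 (max γ i) (max_lt hγ hi)
  exact ⟨β, hQ β hβ ((le_max_right _ _).trans_lt h1) h2, (le_max_left _ _).trans_lt h1, h2⟩

theorem Accum.inter_Iio {α : Ordinal.{u}} {Q : Set Ordinal.{u}} (h : Accum α Q) :
    Accum α (Q ∩ Iio α) :=
  h.tail (pos_iff_ne_zero.2 h.1) fun _ hβ _ h2 => ⟨hβ, h2⟩

theorem Accum.le_of_subset {α t : Ordinal.{u}} {Q : Set Ordinal.{u}} (h : Accum α Q)
    (hQ : Q ⊆ Iio t) : α ≤ t := by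
  by_contra hlt
  obtain ⟨β, hβ, h1, -⟩ := h.2 t (not_le.1 hlt)
  exact absurd (hQ hβ) (not_lt.2 h1.le)

theorem not_accum_of_finite {α : Ordinal.{u}} {Q : Set Ordinal.{u}} (hQ : Q.Finite) :
    ¬ Accum α Q := by
  intro h
  have hf : (Q ∩ Iio α).Finite := hQ.inter_of_left _
  obtain ⟨β0, hβ0, -, h0⟩ := h.2 0 (pos_iff_ne_zero.2 h.1)
  obtain ⟨m, hm, hmax⟩ := hf.exists_maximal ⟨β0, hβ0, h0⟩
  obtain ⟨β, hβ, h1, h2⟩ := h.2 m hm.2
  exact absurd (hmax ⟨hβ, h2⟩ h1.le) (not_le.2 h1)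

/-- Elementary form of clubs. -/
def Cl (o : Ordinal.{u}) (C : Set Ordinal.{u}) : Prop :=
  (∀ γ < o, ∃ β ∈ C, γ < β ∧ β < o) ∧ ∀ α < o, Accum α C → α ∈ C

theorem club_iff {o : Ordinal.{u}} (ho : IsSuccLimit o) {C : Set Ordinal.{u}} :
    Club o C ↔ Cl o C := by
  constructor
  · intro h
    refine ⟨fun γ hγ => ?_, fun α hα hacc => ?_⟩
    · obtain ⟨b, hb, hle⟩ := h.isCofinal ⟨γ + 1, lim_add_one ho hγ⟩
      exact ⟨b.1, hb, (lt_add_one γ).trans_le hle, b.2⟩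
    · have hl : IsLUB {b : Iio o | b.1 ∈ C ∧ b.1 < α} ⟨α, hα⟩ := by
        refine ⟨fun b hb => hb.2.le, fun b hb => ?_⟩
        by_contra hlt
        have hlt' : b.1 < α := not_le.1 hlt
        obtain ⟨β, hβ, h1, h2⟩ := hacc.2 b.1 hlt'
        have hm : (⟨β, h2.trans hα⟩ : Iio o) ∈ {b : Iio o | b.1 ∈ C ∧ b.1 < α} := ⟨hβ, h2⟩
        have := hb hm
        exact absurd this (not_le.2 h1)
      obtain ⟨β, hβ, -, h2⟩ := hacc.2 0 (pos_iff_ne_zero.2 hacc.1)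
      have hne : {b : Iio o | b.1 ∈ C ∧ b.1 < α}.Nonempty := ⟨⟨β, h2.trans hα⟩, hβ, h2⟩
      exact h.isLUB_mem (fun b hb => hb.1) hne hl
  · intro h
    refine ⟨fun d hd hne _ a ha => ?_, fun a => ?_⟩
    · by_cases had : a ∈ d
      · exact hd had
      · refine h.2 a.1 a.2 ⟨?_, fun γ hγ => ?_⟩
        · intro h0
          obtain ⟨b, hb⟩ := hne
          have h1 : b ≤ a := ha.1 hb
          have h2 : b.1 ≤ a.1 := h1
          have : b = a := Subtype.ext (le_antisymm h2 (by rw [h0]; exact zero_le))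
          exact had (this ▸ hb)
        · have : ¬ (⟨γ, hγ.trans a.2⟩ : Iio o) ∈ upperBounds d := by
            intro hu
            have h1 : a ≤ ⟨γ, hγ.trans a.2⟩ := ha.2 hu
            exact absurd (show a.1 ≤ γ from h1) (not_le.2 hγ)
          simp only [upperBounds, mem_ofPred_eq, not_forall] at this
          obtain ⟨b, hb, hlt⟩ := this
          have h1 : b ≤ a := ha.1 hb
          refine ⟨b.1, hd hb, not_le.1 hlt, lt_of_le_of_ne h1 fun he => ?_⟩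
          exact had ((Subtype.ext he : b = a) ▸ hb)
    · obtain ⟨β, hβ, h1, h2⟩ := h.1 a.1 a.2
      exact ⟨⟨β, h2⟩, hβ, h1.le⟩

theorem IsReg.lim {t : Ordinal.{u}} (ht : IsReg t) : IsSuccLimit t := by
  obtain ⟨c, hc, rfl⟩ := ht
  exact isSuccLimit_ord hc.aleph0_le

theorem IsReg.not_sing {t : Ordinal.{u}} (ht : IsReg t) : ¬ IsSing t := by
  obtain ⟨c, hc, rfl⟩ := ht
  intro h
  have := h.2
  rw [hc.cof_ord] at this
  exact lt_irrefl _ this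

theorem IsReg.nat_lt {t : Ordinal.{u}} (ht : IsReg t) (n : ℕ) : (n : Ordinal.{u}) < t :=
  (Ordinal.natCast_lt_omega0 n).trans_le (Ordinal.omega0_le_of_isSuccLimit ht.lim)

theorem IsReg.bdd {t : Ordinal.{u}} (ht : IsReg t) {S : Set Ordinal.{u}} (hS : S ⊆ Iio t)
    (hc : #S < #(Iio t)) : ∃ γ < t, ∀ β ∈ S, β ≤ γ := by
  obtain ⟨c, hc', rfl⟩ := ht
  refine ⟨sSup S, Ordinal.sSup_lt_of_lt_cof ?_ hS, fun β hβ => le_csSup ⟨_, fun b hb => (hS hb).le⟩ hβ⟩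
  rw [← Ordinal.lift_cof, hc'.cof_ord]
  rwa [mk_Iio_ordinal, card_ord] at hc

theorem aleph0_le_mk {α : Ordinal.{u}} (h : IsSuccLimit α) : ℵ₀ ≤ #(Iio α) := by
  rw [mk_Iio_ordinal, ← lift_aleph0.{u + 1, u}, lift_le, Ordinal.aleph0_le_card]
  exact Ordinal.omega0_le_of_isSuccLimit h

theorem IsReg.aleph1_lt {t : Ordinal.{u}} (ht : IsReg t) (h1 : Ordinal.omega 1 < t) :
    ℵ₁ < #(Iio t) := by
  obtain ⟨c, hc', rfl⟩ := ht
  rw [mk_Iio_ordinal, card_ord]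
  rw [← ord_aleph, ord_lt_ord] at h1
  have := lift_lt.{u, u + 1}.2 h1
  simpa using this

/-- A set with countable initial segments does not accumulate at a regular point above `ω₁`. -/
theorem IsReg.not_accum {t : Ordinal.{u}} (ht : IsReg t) (h1 : Ordinal.omega 1 < t)
    {S : Set Ordinal.{u}} (hS : ∀ w < t, (S ∩ Iio w).Countable) : ¬ Accum t S := by
  intro h
  have hl := ht.aleph1_lt h1
  by_cases hc : (S ∩ Iio t).Countable
  · obtain ⟨γ, hγ, hb⟩ := ht.bdd (S := S ∩ Iio t) inter_subset_right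
      ((le_aleph0_iff_set_countable.2 hc).trans_lt (aleph0_lt_aleph_one.trans hl))
    obtain ⟨β, hβ, h2, h3⟩ := h.2 γ hγ
    exact absurd (hb β ⟨hβ, h3⟩) (not_le.2 h2)
  · have h2 : ℵ₁ ≤ #(S ∩ Iio t : Set Ordinal.{u}) := by
      rw [← le_aleph0_iff_set_countable, not_le] at hc
      rwa [← succ_aleph0, succ_le_iff]
    obtain ⟨U, hU, hUc⟩ := le_mk_iff_exists_subset.1 h2
    obtain ⟨γ, hγ, hb⟩ := ht.bdd (S := U) (hU.trans inter_subset_right) (hUc ▸ hl)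
    have h3 : U.Countable := (hS (γ + 1) (lim_add_one ht.lim hγ)).mono fun β hβ =>
      mem_inter (hU hβ).1 ((hb β hβ).trans_lt (lt_add_one γ))
    rw [← le_aleph0_iff_set_countable, hUc] at h3
    exact absurd h3 (not_le.2 aleph0_lt_aleph_one)

section
variable {o : Ordinal.{u}}

theorem mk_lt_of_lt (ho : IsReg o) {γ : Ordinal.{u}} (hγ : γ < o) : #(Iio γ) < #(Iio o) := by
  obtain ⟨c, hc', rfl⟩ := ho
  rw [mk_Iio_ordinal, mk_Iio_ordinal, card_ord, lift_lt]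
  exact lt_ord.1 hγ

theorem cl_closure (ho : IsReg o) (h1 : Ordinal.omega 1 < o)
    (F : Ordinal.{u} → Ordinal.{u} → Ordinal.{u}) (hF : ∀ a < o, ∀ b < o, F a b < o) :
    Cl o {α | ∀ a < α, ∀ b < α, F a b < α} := by
  refine ⟨fun γ hγ => ?_, fun α _ hacc a ha b hb => ?_⟩
  · have key : ∀ γ < o, ∃ δ, δ < o ∧ γ ≤ δ ∧ ∀ a < γ, ∀ b < γ, F a b < δ := by
      intro γ hγ
      have hc : #(image2 F (Iio γ) (Iio γ)) < #(Iio o) := by
        refine mk_image2_le.trans_lt (mul_lt_of_lt (aleph0_le_mk ho.lim) ?_ ?_) <;>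
          exact mk_lt_of_lt ho hγ
      obtain ⟨δ, hδ, hb⟩ := ho.bdd (S := image2 F (Iio γ) (Iio γ))
        (by rintro _ ⟨a, ha, b, hb, rfl⟩; exact hF a (ha.trans hγ) b (hb.trans hγ)) hc
      refine ⟨max γ (δ + 1), max_lt hγ (lim_add_one ho.lim hδ), le_max_left _ _,
        fun a ha b hb' => ?_⟩
      exact ((hb _ ⟨a, ha, b, hb', rfl⟩).trans_lt (lt_add_one δ)).trans_le (le_max_right _ _)
    choose! g hg using key
    let s : ℕ → Ordinal.{u} := fun n => g^[n] (γ + 1)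
    have hs : ∀ n, s n < o := by
      intro n
      induction n with
      | zero => exact lim_add_one ho.lim hγ
      | succ n ih => simp only [s, Function.iterate_succ_apply']; exact (hg _ ih).1
    have hsucc : ∀ n, s (n + 1) = g (s n) := fun n => Function.iterate_succ_apply' _ _ _
    have hmono : Monotone s := monotone_nat_of_le_succ fun n => by
      rw [hsucc]; exact (hg _ (hs n)).2.1
    obtain ⟨δ, hδ, hb⟩ := ho.bdd (S := range s) (by rintro _ ⟨n, rfl⟩; exact hs n)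
      ((le_aleph0_iff_set_countable.2 (countable_range s)).trans_lt
        (aleph0_lt_aleph_one.trans (ho.aleph1_lt h1)))
    have hbdd : BddAbove (range s) := ⟨δ, fun β hβ => hb β hβ⟩
    refine ⟨⨆ n, s n, fun a ha b hb' => ?_, ?_, ?_⟩
    · obtain ⟨n, hn⟩ := (lt_ciSup_iff hbdd).1 ha
      obtain ⟨m, hm⟩ := (lt_ciSup_iff hbdd).1 hb'
      have := (hg _ (hs (max n m))).2.2 a (hn.trans_le (hmono (le_max_left _ _))) b
        (hm.trans_le (hmono (le_max_right _ _)))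
      rw [← hsucc] at this
      exact this.trans_le (le_ciSup hbdd _)
    · exact (lt_add_one γ).trans_le (le_ciSup hbdd 0)
    · exact (ciSup_le fun n => hb _ ⟨n, rfl⟩).trans_lt hδ
  · obtain ⟨β, hβ, h2, h3⟩ := hacc.2 (max a b) (max_lt ha hb)
    exact (hβ a ((le_max_left _ _).trans_lt h2) b ((le_max_right _ _).trans_lt h2)).trans h3

theorem cl_diag (ho : IsReg o) (h1 : Ordinal.omega 1 < o) (C : Ordinal.{u} → Set Ordinal.{u})
    (hC : ∀ i < o, Cl o (C i)) : ∃ E, Cl o E ∧ ∀ β ∈ E, β < o → ∀ i < β, β ∈ C i := by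
  have key : ∀ i < o, ∀ γ < o, ∃ β ∈ C i, γ < β ∧ β < o := fun i hi => (hC i hi).1
  choose! F hF using key
  refine ⟨_, cl_closure ho h1 F fun a ha b hb => (hF a ha b hb).2.2, fun β hβ hβo i hi => ?_⟩
  refine (hC i (hi.trans hβo)).2 β hβo ⟨(zero_le.trans_lt hi).ne', fun γ hγ => ?_⟩
  obtain ⟨h2, h3, -⟩ := hF i (hi.trans hβo) γ (hγ.trans hβo)
  exact ⟨F i γ, h2, h3, hβ i hi γ hγ⟩

theorem Cl.inter (ho : IsReg o) (h1 : Ordinal.omega 1 < o) {C C' : Set Ordinal.{u}}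
    (hC : Cl o C) (hC' : Cl o C') : Cl o (C ∩ C') := by
  classical
  refine ⟨fun γ hγ => ?_, fun α hα hacc =>
    ⟨hC.2 α hα (hacc.mono inter_subset_left), hC'.2 α hα (hacc.mono inter_subset_right)⟩⟩
  obtain ⟨E, hE, hE'⟩ := cl_diag ho h1 (fun i => if i = 0 then C else C')
    (fun i _ => by split_ifs <;> assumption)
  have h2 : (1 : Ordinal.{u}) < o := by simpa using ho.nat_lt 1
  obtain ⟨β, hβ, h3, h4⟩ := hE.1 (max γ 1) (max_lt hγ h2)
  have h5 : 1 < β := (le_max_right _ _).trans_lt h3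
  refine ⟨β, ⟨?_, ?_⟩, (le_max_left _ _).trans_lt h3, h4⟩
  · simpa using hE' β hβ h4 0 (zero_lt_one.trans h5)
  · simpa using hE' β hβ h4 1 h5

theorem cl_univ (ho : IsReg o) : Cl o univ :=
  ⟨fun γ hγ => ⟨γ + 1, trivial, lt_add_one γ, lim_add_one ho.lim hγ⟩, fun _ _ _ => trivial⟩

theorem cl_Ioi (ho : IsReg o) {a : Ordinal.{u}} (ha : a < o) : Cl o (Ioi a) := by
  refine ⟨fun γ hγ => ⟨max γ a + 1, mem_Ioi.2 ((le_max_right γ a).trans_lt (lt_add_one _)),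
    (le_max_left _ _).trans_lt (lt_add_one _), lim_add_one ho.lim (max_lt hγ ha)⟩,
    fun α _ hacc => ?_⟩
  obtain ⟨β, hβ, -, h2⟩ := hacc.2 0 (pos_iff_ne_zero.2 hacc.1)
  exact lt_trans hβ h2

theorem exists_pairing (ho : IsReg o) : ∃ π : Ordinal.{u} → Ordinal.{u} → Ordinal.{u},
    (∀ a < o, ∀ b < o, π a b < o) ∧
    ∀ a < o, ∀ b < o, ∀ a' < o, ∀ b' < o, π a b = π a' b' → a = a' ∧ b = b' := by
  classical
  have h : #(Iio o × Iio o) ≤ #(Iio o) := by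
    rw [mk_prod, lift_id, mul_eq_self (aleph0_le_mk ho.lim)]
  obtain ⟨f⟩ := (Cardinal.le_def _ _).1 h
  refine ⟨fun a b => if h : a < o ∧ b < o then (f (⟨a, h.1⟩, ⟨b, h.2⟩)).1 else 0, ?_, ?_⟩
  · intro a ha b hb
    simp only [ha, hb, and_self, dite_true]
    exact (f _).2
  · intro a ha b hb a' ha' b' hb' he
    simp only [ha, hb, ha', hb', and_self, dite_true] at he
    have := f.injective (Subtype.ext he)
    simpa using this

end

/-- Good points: strong limit cardinals above `ω₁`. -/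
def Good : Set Ordinal.{u} :=
  {α | Ordinal.omega 1 < α ∧ ∀ γ < α, (2 ^ γ.card : Cardinal.{u}).ord < α}

theorem inacc_reg {κ : Cardinal.{u}} (hκ : κ.IsInaccessible) : IsReg κ.ord :=
  ⟨κ, hκ.isRegular, rfl⟩

theorem inacc_omega1 {κ : Cardinal.{u}} (hκ : κ.IsInaccessible) : Ordinal.omega 1 < κ.ord := by
  rw [← ord_aleph, ord_lt_ord, ← succ_aleph0]
  exact hκ.isSuccLimit.succ_lt hκ.aleph0_lt

theorem cl_good {κ : Cardinal.{u}} (hκ : κ.IsInaccessible) : Cl κ.ord Good := by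
  have h := (cl_Ioi (inacc_reg hκ) (inacc_omega1 hκ)).inter (inacc_reg hκ) (inacc_omega1 hκ)
    (cl_closure (inacc_reg hκ) (inacc_omega1 hκ) (fun a _ => (2 ^ a.card : Cardinal.{u}).ord)
      fun a ha _ _ => ord_lt_ord.2 (hκ.isStrongPrelimit (lt_ord.1 ha)))
  have : (Good : Set Ordinal.{u}) = Ioi (Ordinal.omega 1) ∩
      {α | ∀ a < α, ∀ b < α, (2 ^ a.card : Cardinal.{u}).ord < α} := by
    ext α
    exact ⟨fun h => ⟨h.1, fun a ha _ _ => h.2 a ha⟩, fun h => ⟨h.1, fun a ha => h.2 a ha a ha⟩⟩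
  rw [this]
  exact h

theorem good_pow {α γ : Ordinal.{u}} (h : α ∈ Good) (hγ : γ < α) : 2 ^ γ.card ≤ α.card := by
  have := Ordinal.card_le_card (h.2 γ hγ).le
  rwa [card_ord] at this

theorem good_lim {α : Ordinal.{u}} (h : α ∈ Good) : IsSuccLimit α := by
  rw [Ordinal.isSuccLimit_iff]
  refine ⟨(zero_le.trans_lt h.1).ne', isSuccPrelimit_of_succ_lt fun γ hγ => ?_⟩
  exact (succ_le_of_lt (lt_ord.2 (cantor γ.card))).trans_lt (h.2 γ hγ)

theorem good_dich {α : Ordinal.{u}} (h : α ∈ Good) : IsSing α ∨ IsReg α := by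
  rcases (Ordinal.ord_cof_le α).lt_or_eq with h1 | h1
  · exact Or.inl ⟨good_lim h, h1⟩
  · exact Or.inr ⟨α.cof, isRegular_cof (good_lim h), h1.symm⟩

theorem good_two_pow {α : Ordinal.{u}} (h : α ∈ Good) {μ : Cardinal.{u + 1}}
    (hμ : μ < #(Iio α)) : 2 ^ μ ≤ #(Iio α) := by
  rw [mk_Iio_ordinal] at hμ ⊢
  obtain ⟨μ', rfl⟩ := mem_range_lift_of_le hμ.le
  have h1 : μ' < α.card := lift_lt.1 hμ
  have h2 : μ'.ord < α := (ord_lt_ord.2 h1).trans_le (ord_card_le α)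
  have h3 := good_pow h h2
  rw [card_ord] at h3
  have := lift_le.{u + 1}.2 h3
  simpa using this

theorem good_aleph0_lt {α : Ordinal.{u}} (h : α ∈ Good) : ℵ₀ < #(Iio α) := by
  rw [mk_Iio_ordinal, ← lift_aleph0.{u + 1, u}, lift_lt]
  have := Ordinal.card_le_card h.1.le
  rw [← ord_aleph, card_ord] at this
  exact aleph0_lt_aleph_one.trans_le this

theorem good_sing {α : Ordinal.{u}} (h : α ∈ Good) (hs : IsSing α) :
    ∃ c : Set Ordinal.{u}, Accum α c ∧ #c < #(Iio α) := by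
  obtain ⟨S, hS, hc⟩ := Order.exists_cof_eq (Iio α)
  refine ⟨Subtype.val '' S, ⟨(zero_le.trans_lt h.1).ne', fun γ hγ => ?_⟩, ?_⟩
  · obtain ⟨b, hb, hle⟩ := hS ⟨γ + 1, lim_add_one hs.1 hγ⟩
    exact ⟨b.1, ⟨b, hb, rfl⟩, (lt_add_one γ).trans_le hle, b.2⟩
  · rw [mk_image_eq Subtype.val_injective, hc, Ordinal.cof_Iio, ← Ordinal.lift_cof,
      mk_Iio_ordinal, lift_lt]
    have := (cantor _).trans_le (good_pow h hs.2)
    rwa [card_ord] at this

end Pool.Agent.DiaSing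
end

-- merged part: Pool.Agent.Work.MP_76e8a0_lc.Guess
section
/-!
Sets of regular points at which a sequence guesses a set; columns; Kunen's lemma; anti-guessing.
-/

open Cardinal Order Set

universe u

namespace Pool.Agent.DiaSing

/-- Regular points of `C` below `o` at which `x` guesses `X`. -/
def G (o : Ordinal.{u}) (x : Ordinal.{u} → Set Ordinal.{u}) (X C : Set Ordinal.{u}) :
    Set Ordinal.{u} :=
  {β | β ∈ C ∧ IsReg β ∧ β < o ∧ ∀ η < β, (η ∈ x β ↔ η ∈ X)}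

/-- For every sequence there are a set and a club whose guessing set has the property. -/
def Av (o : Ordinal.{u}) (Φ : Set Ordinal.{u} → Prop) : Prop :=
  ∀ x : Ordinal.{u} → Set Ordinal.{u}, ∃ X C, Cl o C ∧ Φ (G o x X C)

variable {o : Ordinal.{u}}

theorem Av.mono {Φ Ψ : Set Ordinal.{u} → Prop} (h : Av o Φ) (hi : ∀ b, Φ b → Ψ b) : Av o Ψ :=
  fun x => let ⟨X, C, hC, hΦ⟩ := h x; ⟨X, C, hC, hi _ hΦ⟩

theorem Av.reg {Φ : Set Ordinal.{u} → Prop} (h : Av o Φ) :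
    Av o fun b => Φ b ∧ ∀ β ∈ b, IsReg β :=
  fun x => let ⟨X, C, hC, hΦ⟩ := h x; ⟨X, C, hC, hΦ, fun _ hβ => hβ.2.1⟩

theorem av_true (ho : IsReg o) : Av o fun _ => True :=
  fun _ => ⟨∅, univ, cl_univ ho, trivial⟩

theorem exists_col (ho : IsReg o) (h1 : Ordinal.omega 1 < o) :
    ∃ col : (Ordinal.{u} → Set Ordinal.{u}) → Ordinal.{u} → Ordinal.{u} → Set Ordinal.{u},
      ∀ (x X C : Ordinal.{u} → Set Ordinal.{u}), (∀ i < o, Cl o (C i)) →
        ∃ X' C', Cl o C' ∧ ∀ β ∈ G o x X' C', ∀ i < β, β ∈ G o (col x i) (X i) (C i) := by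
  obtain ⟨π, hπ, hinj⟩ := exists_pairing ho
  refine ⟨fun x i β => {η | π i η ∈ x β}, fun x X C hC => ?_⟩
  obtain ⟨E, hE, hE'⟩ := cl_diag ho h1 C hC
  refine ⟨{ζ | ∃ i < o, ∃ η < o, η ∈ X i ∧ ζ = π i η}, _,
    hE.inter ho h1 (cl_closure ho h1 π hπ), fun β hβ i hi => ?_⟩
  obtain ⟨⟨hβE, hβπ⟩, hr, hβo, hg⟩ := hβ
  refine ⟨hE' β hβE hβo i hi, hr, hβo, fun η hη => ?_⟩
  refine (hg _ (hβπ i hi η hη)).trans ⟨?_, fun h => ⟨i, hi.trans hβo, η, hη.trans hβo, h, rfl⟩⟩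
  rintro ⟨i', hi', η', hη', hX, he⟩
  obtain ⟨rfl, rfl⟩ := hinj i (hi.trans hβo) η (hη.trans hβo) i' hi' η' hη' he
  exact hX

theorem av_diag (ho : IsReg o) (h1 : Ordinal.omega 1 < o)
    {Φ : Ordinal.{u} → Set Ordinal.{u} → Prop} (h : ∀ i < o, Av o (Φ i)) :
    Av o fun b => ∀ i < o, ∃ b', Φ i b' ∧ ∀ β ∈ b, i < β → β ∈ b' := by
  obtain ⟨col, hcol⟩ := exists_col ho h1
  intro x
  have key : ∀ i < o, ∃ X C, Cl o C ∧ Φ i (G o (col x i) X C) := fun i hi => h i hi _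
  choose! X C hXC using key
  obtain ⟨X', C', hC', hG⟩ := hcol x X C fun i hi => (hXC i hi).1
  exact ⟨X', C', hC', fun i hi => ⟨_, (hXC i hi).2, fun β hβ hiβ => hG β hβ i hiβ⟩⟩

theorem av_and (ho : IsReg o) (h1 : Ordinal.omega 1 < o) {Φ Ψ : Set Ordinal.{u} → Prop}
    (hΦ : Av o Φ) (hΨ : Av o Ψ) :
    Av o fun b => (∃ b', Φ b' ∧ b ⊆ b') ∧ ∃ b', Ψ b' ∧ b ⊆ b' := by
  classical
  have h := av_diag ho h1 (Φ := fun i => if i = 0 then Φ else Ψ)
    (fun i _ => by split_ifs <;> assumption)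
  refine h.reg.mono fun b hb => ⟨?_, ?_⟩
  · obtain ⟨b', h2, h3⟩ := hb.1 0 (by simpa using ho.nat_lt 0)
    exact ⟨b', by simpa using h2, fun β hβ => h3 β hβ (by simpa using (hb.2 β hβ).nat_lt 0)⟩
  · obtain ⟨b', h2, h3⟩ := hb.1 1 (by simpa using ho.nat_lt 1)
    exact ⟨b', by simpa using h2, fun β hβ => h3 β hβ (by simpa using (hb.2 β hβ).nat_lt 1)⟩

theorem av_seq (ho : IsReg o) (h1 : Ordinal.omega 1 < o) {σ : Type (u + 1)} (s0 : σ)
    (next : σ → Set Ordinal.{u} → σ) {Φ : σ → Set Ordinal.{u} → Prop} (h : ∀ s, Av o (Φ s)) :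
    Av o fun b => ∃ (s : ℕ → σ) (bs : ℕ → Set Ordinal.{u}),
      ∀ n, s (n + 1) = next (s n) (bs n) ∧ Φ (s n) (bs n) ∧ b ⊆ bs n := by
  obtain ⟨col, hcol⟩ := exists_col ho h1
  intro x
  choose X C hC hΦ using h
  let s : ℕ → σ := fun n => Nat.rec s0
    (fun n s => next s (G o (col x n) (X s (col x n)) (C s (col x n)))) n
  let k : Ordinal.{u} → ℕ := Function.invFun (Nat.cast : ℕ → Ordinal.{u})
  have hk : ∀ n : ℕ, k n = n := Function.leftInverse_invFun Nat.cast_injective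
  obtain ⟨X', C', hC', hG⟩ := hcol x (fun i => X (s (k i)) (col x i))
    (fun i => C (s (k i)) (col x i)) fun i _ => hC _ _
  refine ⟨X', C', hC', s, fun n => G o (col x n) (X (s n) (col x n)) (C (s n) (col x n)),
    fun n => ⟨rfl, hΦ _ _, fun β hβ => ?_⟩⟩
  have := hG β hβ n (hβ.2.1.nat_lt n)
  simpa only [hk] using this

theorem exists_enum {α : Ordinal.{u}} {𝓐 : Set (Set Ordinal.{u})} (h : #𝓐 ≤ #(Iio α)) :
    ∃ f : Ordinal.{u} → Set Ordinal.{u}, ∀ A ∈ 𝓐, ∃ ξ < α, f ξ = A := by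
  obtain ⟨g⟩ := (Cardinal.le_def _ _).1 h
  have hi : Function.Injective fun A : 𝓐 => (g A).1 :=
    Subtype.val_injective.comp g.injective
  refine ⟨Function.extend (fun A : 𝓐 => (g A).1) Subtype.val fun _ => ∅, fun A hA => ?_⟩
  exact ⟨(g ⟨A, hA⟩).1, (g ⟨A, hA⟩).2, hi.extend_apply _ _ ⟨A, hA⟩⟩

theorem not_dia (ho : IsReg o) {S : Set Ordinal.{u}} (h : ¬ Dia o S)
    (x : Ordinal.{u} → Set Ordinal.{u}) :
    ∃ X C, Cl o C ∧ ∀ α ∈ C, α < o → α ∈ S → X ∩ Iio α ≠ x α ∩ Iio α := by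
  unfold Dia at h
  push Not at h
  obtain ⟨X, -, hX⟩ := h (fun α => x α ∩ Iio α) fun _ _ => inter_subset_right
  obtain ⟨t, ht, hd⟩ := not_isStationary_iff.1 hX
  refine ⟨X, Subtype.val '' t, (club_iff ho.lim).1 ?_, ?_⟩
  · have : {a : Iio o | a.1 ∈ Subtype.val '' t} = t := by
      ext a
      exact Subtype.val_injective.mem_set_image
    unfold Club
    rwa [this]
  · rintro _ ⟨a, ha, rfl⟩ _ hS he
    exact disjoint_left.1 hd (show a ∈ {a : Iio o | a.1 ∈ S ∧ X ∩ Iio a.1 = x a.1 ∩ Iio a.1}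
      from ⟨hS, he⟩) ha

/-- Kunen's lemma. -/
theorem kunen (ho : IsReg o) (h1 : Ordinal.omega 1 < o) {S : Set Ordinal.{u}} (h : ¬ Dia o S)
    (𝓐 : Ordinal.{u} → Set (Set Ordinal.{u})) :
    ∃ X C, Cl o C ∧ ∀ α ∈ C, α < o → α ∈ S → #(𝓐 α) ≤ #(Iio α) → X ∩ Iio α ∉ 𝓐 α := by
  obtain ⟨π, hπ, hinj⟩ := exists_pairing ho
  have key : ∀ α, #(𝓐 α) ≤ #(Iio α) → ∃ f : Ordinal.{u} → Set Ordinal.{u},
      ∀ A ∈ 𝓐 α, ∃ ξ < α, f ξ = A := fun α => exists_enum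
  choose! f hf using key
  choose X C hC hX using fun ξ => not_dia ho h fun α => {η | π ξ η ∈ f α ξ}
  obtain ⟨E, hE, hE'⟩ := cl_diag ho h1 C fun i _ => hC i
  refine ⟨{ζ | ∃ i < o, ∃ η < o, η ∈ X i ∧ ζ = π i η}, _,
    hE.inter ho h1 (cl_closure ho h1 π hπ), fun α hα hαo hS hc hA => ?_⟩
  obtain ⟨ξ, hξ, he⟩ := hf α hc _ hA
  refine hX ξ α (hE' α hα.1 hαo ξ hξ) hαo hS ?_
  ext η
  simp only [mem_inter_iff, mem_Iio, mem_ofPred_eq, he]
  refine and_congr_left fun hη => ⟨fun hX => ⟨⟨ξ, hξ.trans hαo, η, hη.trans hαo, hX, rfl⟩,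
    hα.2 ξ hξ η hη⟩, ?_⟩
  rintro ⟨⟨i', hi', η', hη', hX, he⟩, -⟩
  obtain ⟨rfl, rfl⟩ := hinj ξ (hξ.trans hαo) η (hη.trans hαo) i' hi' η' hη' he
  exact hX

/-- Anti-guessing: small sets listed at a singular point are not filled cofinally. -/
theorem av_anti {κ : Cardinal.{u}} (hκ : κ.IsInaccessible)
    (h : ¬ Dia κ.ord {α | α < κ.ord ∧ IsSing α}) (𝓛 : Ordinal.{u} → Set (Set Ordinal.{u}))
    {E : Set Ordinal.{u}} (hE : Cl κ.ord E)
    (hL : ∀ α ∈ E, α ∈ Good → α < κ.ord → IsSing α →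
      #(𝓛 α) ≤ #(Iio α) ∧ ∀ L ∈ 𝓛 α, #L < #(Iio α)) :
    Av κ.ord fun b => b ⊆ Good ∧ ∀ α < κ.ord, IsSing α → ∀ L ∈ 𝓛 α, ¬ Accum α (L ∩ b) := by
  have ho := inacc_reg hκ
  have h1 := inacc_omega1 hκ
  intro x
  obtain ⟨X, C, hC, hX⟩ := kunen ho h1 h fun α =>
    (fun M : Set Ordinal.{u} => ⋃ β ∈ M, x β ∩ Iio β) '' ⋃₀ (powerset '' 𝓛 α)
  have hC' := (hC.inter ho h1 hE).inter ho h1 (cl_good hκ)
  refine ⟨X, _, hC', fun β hβ => hβ.1.2, fun α hα hs L hL' hacc => ?_⟩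
  obtain ⟨⟨hαC, hαE⟩, hαG⟩ := hC'.2 α hα (hacc.mono fun β hβ => hβ.2.1)
  obtain ⟨h2, h3⟩ := hL α hαE hαG hα hs
  refine hX α hαC hα ⟨hα, hs⟩ ?_ ⟨L ∩ G κ.ord x X (C ∩ E ∩ Good) ∩ Iio α,
    ⟨𝒫 L, ⟨L, hL', rfl⟩, fun β hβ => hβ.1.1⟩, ?_⟩
  · refine mk_image_le.trans ((mk_sUnion_le _).trans ?_)
    refine (mul_le_mul' (mk_image_le.trans h2) (ciSup_le' ?_)).trans
      (mul_eq_self (aleph0_le_mk hs.1)).le
    rintro ⟨_, L, hL, rfl⟩
    rw [mk_powerset]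
    exact good_two_pow hαG (h3 L hL)
  · ext η
    simp only [mem_iUnion, mem_inter_iff, mem_Iio, exists_prop]
    constructor
    · rintro ⟨β, ⟨⟨-, hβ⟩, hβα⟩, hη, hηβ⟩
      exact ⟨(hβ.2.2.2 η hηβ).1 hη, hηβ.trans hβα⟩
    · rintro ⟨hη, hηα⟩
      obtain ⟨β, hβ, h4, h5⟩ := hacc.2 η hηα
      exact ⟨β, ⟨hβ, h5⟩, (hβ.2.2.2.2 η h4).2 hη, h4⟩

/-- Under diamond on the regular points every guessing set is unbounded. -/
theorem dia_accum (ho : IsReg o) (h1 : Ordinal.omega 1 < o)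
    (h : Dia o {α | α < o ∧ IsReg α}) {Φ : Set Ordinal.{u} → Prop} (hΦ : Av o Φ) :
    ∃ b, Φ b ∧ Accum o b := by
  obtain ⟨x, -, hx⟩ := h
  obtain ⟨X, C, hC, hb⟩ := hΦ x
  refine ⟨_, hb, ho.lim.ne_bot, fun γ hγ => ?_⟩
  have hcl : Club o (C ∩ Ioi γ) := (club_iff ho.lim).2 (hC.inter ho h1 (cl_Ioi ho hγ))
  obtain ⟨a, ⟨⟨-, hr⟩, he⟩, haC, haγ⟩ := hx (X ∩ Iio o) inter_subset_right hcl
  refine ⟨a.1, ⟨haC, hr, a.2, fun η hη => ?_⟩, haγ, a.2⟩
  rw [← he]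
  exact ⟨fun h => h.1.1, fun h => ⟨⟨h, hη.trans a.2⟩, hη⟩⟩

end Pool.Agent.DiaSing
end

-- merged part: Pool.Agent.Work.MP_76e8a0_lc.Tree
section
/-!
Finitely branching local trees of ordinals and the catching argument.
-/

open Cardinal Order Set

universe u

namespace Pool.Agent.DiaSing

/-- A finitely branching, regressive and local assignment. -/
structure Loc where
  /-- the finite set attached to a set and a point -/
  T : Set Ordinal.{u} → Ordinal.{u} → Set Ordinal.{u}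
  fin : ∀ Q w, (T Q w).Finite
  lt : ∀ Q w, ∀ s ∈ T Q w, s < w
  loc : ∀ Q Q' w, Q ∩ Iio w = Q' ∩ Iio w → T Q w = T Q' w

/-- Points reachable from `w`. -/
def Rch (T : Loc.{u}) (Q : Set Ordinal.{u}) (w : Ordinal.{u}) : Set Ordinal.{u} :=
  {v | Relation.ReflTransGen (fun a b => b ∈ T.T Q a) w v}

theorem rch_le {T : Loc.{u}} {Q : Set Ordinal.{u}} {w v : Ordinal.{u}} (h : v ∈ Rch T Q w) :
    v ≤ w := by
  induction h with
  | refl => exact le_rfl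
  | tail _ h2 ih => exact (T.lt _ _ _ h2).le.trans ih

theorem rch_finite (T : Loc.{u}) (Q : Set Ordinal.{u}) (w : Ordinal.{u}) : (Rch T Q w).Finite := by
  induction w using WellFoundedLT.induction with
  | ind w ih =>
    refine ((finite_singleton w).union ((T.fin Q w).biUnion fun s hs => ih s (T.lt _ _ _ hs))).subset
      fun v hv => ?_
    rcases Relation.ReflTransGen.cases_head hv with rfl | ⟨s, hs, hv⟩
    · exact Or.inl rfl
    · exact Or.inr (mem_biUnion hs hv)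

theorem inter_Iio_of_le {Q Q' : Set Ordinal.{u}} {w v : Ordinal.{u}} (h : Q ∩ Iio w = Q' ∩ Iio w)
    (hv : v ≤ w) : Q ∩ Iio v = Q' ∩ Iio v := by
  have : ∀ P : Set Ordinal.{u}, P ∩ Iio v = (P ∩ Iio w) ∩ Iio v := fun P => by
    rw [inter_assoc, inter_eq_right.2 (Iio_subset_Iio hv)]
  rw [this Q, this Q', h]

theorem rch_loc {T : Loc.{u}} {Q Q' : Set Ordinal.{u}} {w v : Ordinal.{u}}
    (h : Q ∩ Iio w = Q' ∩ Iio w) (hv : v ∈ Rch T Q w) : v ∈ Rch T Q' w := by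
  induction hv with
  | refl => exact Relation.ReflTransGen.refl
  | tail h1 h2 ih =>
    refine Relation.ReflTransGen.tail ih ?_
    rwa [← T.loc Q Q' _ (inter_Iio_of_le h (rch_le h1))]

/-- The caught points below `w`. -/
def Y (T : Loc.{u}) (Q : Set Ordinal.{u}) (w : Ordinal.{u}) : Set Ordinal.{u} :=
  {δ | δ + 1 ∈ Rch T Q w}

theorem y_lt {T : Loc.{u}} {Q : Set Ordinal.{u}} {w δ : Ordinal.{u}} (h : δ ∈ Y T Q w) : δ < w :=
  (lt_add_one δ).trans_le (rch_le h)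

theorem y_finite (T : Loc.{u}) (Q : Set Ordinal.{u}) (w : Ordinal.{u}) : (Y T Q w).Finite :=
  (rch_finite T Q w).preimage (f := fun δ => δ + 1) fun a _ b _ h => by
    simpa [← succ_eq_add_one] using h

/-- The caught points of `Q` in the gaps of `c`. -/
def Zc (T : Loc.{u}) (Q c : Set Ordinal.{u}) : Set Ordinal.{u} :=
  {δ | δ ∈ Q ∧ ∃ e ∈ c, δ ∈ Y T Q e ∧ ∀ e' ∈ c, e' < e → e' ≤ δ}

theorem zc_subset (T : Loc.{u}) (Q c : Set Ordinal.{u}) : Zc T Q c ⊆ Q := fun _ h => h.1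

theorem zc_Iio {T : Loc.{u}} {Q c : Set Ordinal.{u}} {w : Ordinal.{u}} (hc : c ⊆ Iio w) :
    Zc T Q c ⊆ Iio w := fun _ ⟨_, _, he, h, _⟩ => (y_lt h).trans (hc he)

theorem zc_loc {T : Loc.{u}} {Q Q' c : Set Ordinal.{u}} {w : Ordinal.{u}} (hc : c ⊆ Iio w)
    (h : Q ∩ Iio w = Q' ∩ Iio w) : Zc T Q c = Zc T Q' c := by
  have key : ∀ Q Q' : Set Ordinal.{u}, Q ∩ Iio w = Q' ∩ Iio w → Zc T Q c ⊆ Zc T Q' c := by
    rintro Q Q' h δ ⟨hQ, e, he, hY, hm⟩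
    have h1 : δ ∈ Q' ∩ Iio w := h ▸ mem_inter hQ ((y_lt hY).trans (hc he))
    exact ⟨h1.1, e, he, rch_loc (inter_Iio_of_le h (hc he).le) hY, hm⟩
  exact (key Q Q' h).antisymm (key Q' Q h.symm)

theorem accum_of_zc {T : Loc.{u}} {Q c : Set Ordinal.{u}} {α : Ordinal.{u}}
    (h : Accum α (Zc T Q c)) : Accum α c := by
  refine ⟨h.1, fun γ hγ => ?_⟩
  by_contra hn
  push Not at hn
  obtain ⟨δ0, ⟨-, e0, he0, hY0, hm0⟩, h1, h2⟩ := h.2 γ hγ
  have hα0 : α ≤ e0 := hn e0 he0 (h1.trans (y_lt hY0))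
  refine not_accum_of_finite (y_finite T Q e0) (h.tail hγ ?_)
  rintro δ ⟨-, e, he, hY, hm⟩ h3 h4
  have hα : α ≤ e := hn e he (h3.trans (y_lt hY))
  rcases lt_trichotomy e e0 with h5 | h5 | h5
  · exact absurd ((hm0 e he h5).trans_lt h2) (not_lt.2 hα)
  · exact h5 ▸ hY
  · exact absurd ((hm e0 he0 h5).trans_lt h4) (not_lt.2 hα0)

theorem zc_trace {T : Loc.{u}} {Q c : Set Ordinal.{u}} {α : Ordinal.{u}} (h : Accum α c) :
    Zc T Q c ∩ Iio α = Zc T (Q ∩ Iio α) (c ∩ Iio α) := by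
  rw [← zc_loc (T := T) (Q := Q) (Q' := Q ∩ Iio α) (c := c ∩ Iio α) (w := α) inter_subset_right
    (by rw [inter_assoc, inter_self])]
  ext δ
  constructor
  · rintro ⟨⟨hQ, e, he, hY, hm⟩, hδ⟩
    obtain ⟨β, hβ, h1, h2⟩ := h.2 δ hδ
    have h3 : e < α := by
      by_contra h4
      exact absurd (hm β hβ (h2.trans_le (not_lt.1 h4))) (not_le.2 h1)
    exact ⟨hQ, e, ⟨he, h3⟩, hY, fun e' he' => hm e' he'.1⟩
  · rintro ⟨hQ, e, he, hY, hm⟩
    exact ⟨⟨hQ, e, he.1, hY, fun e' he' h1 => hm e' ⟨he', h1.trans he.2⟩ h1⟩,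
      (y_lt hY).trans he.2⟩

theorem mk_zc_le (T : Loc.{u}) (Q c : Set Ordinal.{u}) : #(Zc T Q c) ≤ #c * ℵ₀ := by
  have h : Zc T Q c ⊆ ⋃ e : c, Y T Q e.1 := by
    rintro δ ⟨-, e, he, hY, -⟩
    exact mem_iUnion.2 ⟨⟨e, he⟩, hY⟩
  refine (mk_le_mk_of_subset h).trans ((mk_iUnion_le _).trans ?_)
  refine mul_le_mul' le_rfl (ciSup_le' fun e => ?_)
  exact le_aleph0_iff_set_countable.2 (y_finite T Q e.1).countable

/-- The least strict upper bound. -/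
noncomputable def bd (A : Set Ordinal.{u}) : Ordinal.{u} := sInf {s | A ⊆ Iio s}

theorem bd_spec {A : Set Ordinal.{u}} {w : Ordinal.{u}} (hw : IsSuccLimit w) (hA : A ⊆ Iio w)
    (h : ¬ Accum w A) : bd A < w ∧ A ⊆ Iio (bd A) := by
  refine ⟨?_, csInf_mem (s := {s | A ⊆ Iio s}) ⟨w, hA⟩⟩
  unfold Accum at h
  push Not at h
  obtain ⟨γ, hγ, hb⟩ := h hw.ne_bot
  refine (csInf_le' (s := {s | A ⊆ Iio s}) (a := γ + 1) fun β hβ => ?_).trans_lt
    (lim_add_one hw hγ)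
  by_contra h1
  have h2 : γ < β := (lt_add_one γ).trans_le (not_lt.1 h1)
  exact absurd (hA hβ) (not_lt.2 (hb β hβ h2))

/-- One refinement step. -/
def Loc.next (cl : Ordinal.{u} → Set Ordinal.{u}) (T : Loc.{u}) (b : Set Ordinal.{u}) :
    Loc.{u} where
  T Q w := T.T Q w ∪ {s | s < w ∧
    (s + 1 = w ∨ s = bd (Q ∩ Iio w ∩ b) ∨ s = bd (Zc T Q (cl w ∩ Iio w) ∩ b))}
  fin Q w := by
    refine (T.fin Q w).union (Finite.subset (s := {s | s + 1 = w} ∪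
      {bd (Q ∩ Iio w ∩ b), bd (Zc T Q (cl w ∩ Iio w) ∩ b)}) ?_ fun s hs => hs.2)
    refine Finite.union (Subsingleton.finite fun a ha b hb => ?_) (toFinite _)
    have h : a + 1 = b + 1 := (show a + 1 = w from ha).trans (show b + 1 = w from hb).symm
    simpa [← succ_eq_add_one] using h
  lt Q w s hs := hs.elim (T.lt Q w s) fun h => h.1
  loc Q Q' w h := by
    rw [T.loc Q Q' w h, h, zc_loc (T := T) (c := cl w ∩ Iio w) inter_subset_right h]

theorem catch_all (cl : Ordinal.{u} → Set Ordinal.{u}) (T : ℕ → Loc.{u})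
    (bs : ℕ → Set Ordinal.{u}) (hT : ∀ n, T (n + 1) = (T n).next cl (bs n))
    (Q : Set Ordinal.{u}) (w0 : Ordinal.{u})
    (H : ∀ w ≤ w0, (∀ n, Accum w (Q ∩ bs n)) →
      Accum w (cl w) ∧ ∀ n, ¬ Accum w (Zc (T n) Q (cl w ∩ Iio w) ∩ bs n))
    {δ : Ordinal.{u}} (hQ : δ ∈ Q) (hb : ∀ n, δ ∈ bs n) :
    ∀ w ≤ w0, δ < w → ∃ n, δ ∈ Y (T n) Q w := by
  have hmono : ∀ a, Monotone fun n => (T n).T Q a := fun a =>
    monotone_nat_of_le_succ fun n => by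
      rw [hT]
      exact subset_union_left
  intro w
  induction w using WellFoundedLT.induction with
  | ind w ih =>
    intro hw hδ
    have step : ∀ n s, s ∈ (T n).T Q w → δ < s → ∃ n, δ ∈ Y (T n) Q w := by
      intro n s hs hδs
      have hsw := (T n).lt _ _ _ hs
      obtain ⟨m, hm⟩ := ih s hsw (hsw.le.trans hw) hδs
      refine ⟨max n m, Relation.ReflTransGen.head (hmono w (le_max_left n m) hs) ?_⟩
      exact Relation.ReflTransGen.mono (fun a b hab => hmono a (le_max_right n m) hab) _ _ hm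
    rcases Ordinal.zero_or_succ_or_isSuccLimit w with rfl | ⟨s, rfl⟩ | hl
    · exact absurd hδ not_lt_zero
    · rw [succ_eq_add_one] at *
      rcases (Order.lt_add_one_iff.1 hδ).lt_or_eq with h | rfl
      · refine step 1 s ?_ h
        rw [hT]
        exact Or.inr ⟨lt_add_one s, Or.inl rfl⟩
      · exact ⟨0, Relation.ReflTransGen.refl⟩
    · by_cases hacc : ∀ n, Accum w (Q ∩ bs n)
      · obtain ⟨hc, hz⟩ := H w hw hacc
        obtain ⟨β, hβ, h1, h2⟩ := hc.2 δ hδ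
        have hne : {e | e ∈ cl w ∩ Iio w ∧ δ < e}.Nonempty := ⟨β, ⟨hβ, h2⟩, h1⟩
        have hm := csInf_mem hne
        obtain ⟨n, hn⟩ := ih _ hm.1.2 ((le_of_lt hm.1.2).trans hw) hm.2
        have hδz : δ ∈ Zc (T n) Q (cl w ∩ Iio w) := by
          refine ⟨hQ, _, hm.1, hn, fun e' he' hlt => ?_⟩
          by_contra h3
          exact absurd (csInf_le' (s := {e | e ∈ cl w ∩ Iio w ∧ δ < e}) ⟨he', not_le.1 h3⟩)
            (not_le.2 hlt)
        obtain ⟨h3, h4⟩ := bd_spec hl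
          (inter_subset_left.trans (zc_Iio inter_subset_right)) (hz n)
        refine step (n + 1) _ ?_ (h4 ⟨hδz, hb n⟩)
        rw [hT]
        exact Or.inr ⟨h3, Or.inr (Or.inr rfl)⟩
      · push Not at hacc
        obtain ⟨n, hn⟩ := hacc
        obtain ⟨h3, h4⟩ := bd_spec (A := Q ∩ Iio w ∩ bs n) hl (fun β hβ => hβ.1.2)
          fun h => hn (h.mono fun β hβ => ⟨hβ.1.1, hβ.2⟩)
        refine step (n + 1) _ ?_ (h4 ⟨⟨hQ, hδ⟩, hb n⟩)
        rw [hT]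
        exact Or.inr ⟨h3, Or.inr (Or.inl rfl)⟩

/-- The empty assignment. -/
def Loc.empty : Loc.{u} where
  T _ _ := ∅
  fin _ _ := finite_empty
  lt _ _ _ h := h.elim
  loc _ _ _ _ := rfl

end Pool.Agent.DiaSing
end

-- merged part: Pool.Agent.Work.MP_76e8a0_lc.Core
section
/-!
The main induction on thin sets.
-/

open Cardinal Order Set

universe u

namespace Pool.Agent.DiaSing

/-- Few traces at club many singular points. -/
def Narrow (o : Ordinal.{u}) (𝓠 : Set (Set Ordinal.{u})) : Prop :=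
  ∃ E, Cl o E ∧ ∀ α ∈ E, α < o → IsSing α →
    #{Z : Set Ordinal.{u} | ∃ Q ∈ 𝓠, Accum α Q ∧ Z = Q ∩ Iio α} ≤ #(Iio α)

/-- The conclusion of the main induction. -/
def Concl (o : Ordinal.{u}) (A : Set Ordinal.{u}) (𝓠 : Set (Set Ordinal.{u}))
    (b : Set Ordinal.{u}) : Prop :=
  ∀ Q ∈ 𝓠, ∀ w < o, (∀ α ≤ w, IsReg α → Accum α Q → α ∈ A) → (Q ∩ b ∩ Iio w).Countable

theorem narrow_zc {o : Ordinal.{u}} (ho : IsReg o) (h1 : Ordinal.omega 1 < o)
    {A : Set Ordinal.{u}} {e : Ordinal.{u} → Set Ordinal.{u}}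
    (hn : ∃ E, Club o E ∧ ∀ α ∈ E, α < o → IsSing α →
        #{Z : Set Ordinal.{u} | ∃ t ∈ A, α < t ∧ t < o ∧ IsReg t ∧ Accum α (e t) ∧
          Z = e t ∩ Iio α} ≤ #(Iio α))
    {𝓠 : Set (Set Ordinal.{u})} (hQ : Narrow o 𝓠) (T : Loc.{u}) :
    Narrow o {Z | ∃ Q ∈ 𝓠, ∃ t ∈ A, t < o ∧ IsReg t ∧ Z = Zc T Q (e t ∩ Iio t)} := by
  obtain ⟨E, hE, hE'⟩ := hn
  obtain ⟨F, hF, hF'⟩ := hQ
  refine ⟨E ∩ F, ((club_iff ho.lim).1 hE).inter ho h1 hF, fun α hα hαo hs => ?_⟩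
  refine (mk_le_mk_of_subset (t := image2 (Zc T)
    {Z : Set Ordinal.{u} | ∃ Q ∈ 𝓠, Accum α Q ∧ Z = Q ∩ Iio α}
    {Z : Set Ordinal.{u} | ∃ t ∈ A, α < t ∧ t < o ∧ IsReg t ∧ Accum α (e t) ∧
      Z = e t ∩ Iio α}) ?_).trans (mk_image2_le.trans ?_)
  · rintro _ ⟨_, ⟨Q, hQ, t, ht, hto, hr, rfl⟩, hacc, rfl⟩
    have h2 := accum_of_zc hacc
    have h3 : α < t := by
      refine (h2.le_of_subset inter_subset_right).lt_of_ne fun h => hr.not_sing (h ▸ hs)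
    refine ⟨Q ∩ Iio α, ⟨Q, hQ, hacc.mono (zc_subset _ _ _), rfl⟩, e t ∩ Iio α,
      ⟨t, ht, h3, hto, hr, h2.mono inter_subset_left, rfl⟩, ?_⟩
    rw [zc_trace h2, inter_assoc, inter_eq_right.2 (Iio_subset_Iio h3.le)]
  · exact (mul_le_mul' (hF' α hα.2 hαo hs) (hE' α hα.1 hαo hs)).trans
      (mul_eq_self (aleph0_le_mk hs.1)).le

theorem core {κ : Cardinal.{u}} (hκ : κ.IsInaccessible)
    (h : ¬ Dia κ.ord {α | α < κ.ord ∧ IsSing α}) {A : Set Ordinal.{u}} (hA : Thin κ.ord A) :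
    ∀ 𝓠, Narrow κ.ord 𝓠 → Av κ.ord (Concl κ.ord A 𝓠) := by
  classical
  have ho := inacc_reg hκ
  have h1 := inacc_omega1 hκ
  induction hA with
  | mk A I B e _ he hn ih =>
    intro 𝓠 hQ
    have key : ∀ α ∈ (Good : Set Ordinal.{u}), IsSing α →
        ∃ c : Set Ordinal.{u}, Accum α c ∧ #c < #(Iio α) := fun α => good_sing
    choose! c hc using key
    let cl : Ordinal.{u} → Set Ordinal.{u} := fun w => if IsSing w then c w else e w
    have step : ∀ T : Loc.{u}, Av κ.ord fun b => b ⊆ Good ∧ ∀ Q ∈ 𝓠, ∀ w < κ.ord, w ∈ Good →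
        (IsReg w → w ∈ A) → ¬ Accum w (Zc T Q (cl w ∩ Iio w) ∩ b) := by
      intro T
      obtain ⟨F, hF, hF'⟩ := hQ
      have a1 := av_anti hκ h (fun α => (fun Z => Zc T Z (c α ∩ Iio α)) ''
        {Z : Set Ordinal.{u} | ∃ Q ∈ 𝓠, Accum α Q ∧ Z = Q ∩ Iio α}) hF
        fun α hα hG hαo hs => ⟨mk_image_le.trans (hF' α hα hαo hs), by
          rintro _ ⟨Z, -, rfl⟩
          exact (mk_zc_le _ _ _).trans_lt (mul_lt_of_lt (aleph0_le_mk hs.1)
            ((mk_le_mk_of_subset inter_subset_left).trans_lt (hc α hG hs).2)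
            (good_aleph0_lt hG))⟩
      have a2 := av_diag ho h1 (Φ := fun j b => j ∈ I → Concl κ.ord (B j)
        {Z | ∃ Q ∈ 𝓠, ∃ t ∈ A, t < κ.ord ∧ IsReg t ∧ Z = Zc T Q (e t ∩ Iio t)} b)
        fun j _ => by
          by_cases hj : j ∈ I
          · exact (ih j hj _ (narrow_zc ho h1 hn ⟨F, hF, hF'⟩ T)).mono fun b hb _ => hb
          · exact (av_true ho).mono fun b _ hj' => absurd hj' hj
      refine (av_and ho h1 a1 a2).mono ?_
      rintro b ⟨⟨b1, ⟨hG1, hb1⟩, hs1⟩, b2, hb2, hs2⟩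
      refine ⟨hs1.trans hG1, fun Q hQ w hw hG hwA hacc => ?_⟩
      rcases good_dich hG with hs | hr
      · have hcl : cl w = c w := if_pos hs
        rw [hcl] at hacc
        refine hb1 w hw hs _ ⟨Q ∩ Iio w, ⟨Q, hQ,
          hacc.mono (inter_subset_left.trans (zc_subset _ _ _)), rfl⟩, rfl⟩ ?_
        show Accum w (Zc T (Q ∩ Iio w) (c w ∩ Iio w) ∩ b1)
        rw [← zc_loc (T := T) (Q := Q) (Q' := Q ∩ Iio w) (c := c w ∩ Iio w) (w := w)
          inter_subset_right (by rw [inter_assoc, inter_self])]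
        exact hacc.mono (inter_subset_inter_right _ hs1)
      · have hcl : cl w = e w := if_neg hr.not_sing
        rw [hcl] at hacc
        obtain ⟨-, i, hi, hiw, hB⟩ := he w (hwA hr) hw hr
        obtain ⟨b', hb', hs'⟩ := hb2 i (hiw.trans hw)
        refine hr.not_accum hG.1 (S := Zc T Q (e w ∩ Iio w) ∩ b') (fun v hv => ?_)
          (hacc.tail hiw fun β hβ h2 _ => ⟨hβ.1, hs' β (hs2 hβ.2) h2⟩)
        refine hb' hi _ ⟨Q, hQ, w, hwA hr, hw, hr, rfl⟩ v (hv.trans hw) fun α hα hαr h2 => ?_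
        exact hB α (hα.trans_lt hv) hαr ((accum_of_zc h2).mono inter_subset_left)
    refine (av_seq ho h1 Loc.empty (Loc.next cl) step).mono ?_
    rintro b ⟨T, bs, hT⟩ Q hQ w0 hw0 hA
    refine (countable_iUnion fun n => (y_finite (T n) Q w0).countable).mono ?_
    rintro δ ⟨⟨hδQ, hδb⟩, hδ⟩
    refine mem_iUnion.2 (catch_all cl T bs (fun n => (hT n).1) Q w0 (fun w hw hacc => ?_) hδQ
      (fun n => (hT n).2.2 hδb) w0 le_rfl hδ)
    have hwo : w < κ.ord := hw.trans_lt hw0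
    have hG : w ∈ Good := (cl_good hκ).2 w hwo
      ((hacc 0).mono (inter_subset_right.trans (hT 0).2.1.1))
    have hwA : IsReg w → w ∈ A := fun hr => hA w hw hr ((hacc 0).mono inter_subset_left)
    refine ⟨?_, fun n => (hT n).2.1.2 Q hQ w hwo hG hwA⟩
    rcases good_dich hG with hs | hr
    · have hcl : cl w = c w := if_pos hs
      rw [hcl]
      exact (hc w hG hs).1
    · have hcl : cl w = e w := if_neg hr.not_sing
      rw [hcl]
      exact (he w (hwA hr) hwo hr).1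

theorem main {κ : Cardinal.{u}} (hκ : κ.IsInaccessible) {D : Set Ordinal.{u}}
    (hD : Club κ.ord D) (hT : Thin κ.ord D) (h : Dia κ.ord {α | α < κ.ord ∧ IsReg α}) :
    Dia κ.ord {α | α < κ.ord ∧ IsSing α} := by
  by_contra hn
  have ho := inacc_reg hκ
  have h1 := inacc_omega1 hκ
  have hD' := (club_iff ho.lim).1 hD
  have hN : Narrow κ.ord {D} := by
    refine ⟨univ, cl_univ ho, fun α _ _ hs => ?_⟩
    refine (mk_le_mk_of_subset (t := {D ∩ Iio α}) ?_).trans ?_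
    · rintro _ ⟨_, rfl, -, rfl⟩
      rfl
    · rw [mk_singleton]
      exact one_le_aleph0.trans (aleph0_le_mk hs.1)
  obtain ⟨b, ⟨⟨b1, hb1, hs1⟩, b2, hb2, hs2⟩, hacc⟩ := dia_accum ho h1 h
    (av_and ho h1 (core hκ hn hT _ hN) (Ψ := fun b => b ⊆ D)
      fun x => ⟨∅, D, hD', fun _ hβ => hβ.1⟩)
  refine ho.not_accum h1 (S := D ∩ b1) (fun w hw => ?_)
    (hacc.mono fun β hβ => ⟨hb2 (hs2 hβ), hs1 hβ⟩)
  exact hb1 D rfl w hw fun α hα _ h2 => hD'.2 α (hα.trans_lt hw) h2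

end Pool.Agent.DiaSing
end
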