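import Mathlib

/-!
Definitions for diamond on regular and on singular points below an inaccessible cardinal.
-/

open Cardinal Order Set

universe u

namespace Pool.Agent.DiaSing

/-- `α` is an accumulation point of `Q`: it is not zero and `Q ∩ α` is unbounded in `α`. -/
def Accum (α : Ordinal.{u}) (Q : Set Ordinal.{u}) : Prop :=
  α ≠ 0 ∧ ∀ γ < α, ∃ β ∈ Q, γ < β ∧ β < α

/-- `C ∩ o` is a club subset of `o` (Mathlib's `IsClub` in the order `Iio o`). -/
def Club (o : Ordinal.{u}) (C : Set Ordinal.{u}) : Prop :=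
  IsClub {a : Iio o | a.1 ∈ C}

/-- `α` is (the initial ordinal of) a regular cardinal. -/
def IsReg (α : Ordinal.{u}) : Prop :=
  ∃ c : Cardinal.{u}, c.IsRegular ∧ α = c.ord

/-- `α` is a singular limit ordinal. -/
def IsSing (α : Ordinal.{u}) : Prop :=
  IsSuccLimit α ∧ α.cof.ord < α

/-- The diamond principle on `S` at `o`. -/
def Dia (o : Ordinal.{u}) (S : Set Ordinal.{u}) : Prop :=
  ∃ x : Ordinal.{u} → Set Ordinal.{u}, (∀ α ∈ S, x α ⊆ Iio α) ∧
    ∀ X ⊆ Iio o, IsStationary {a : Iio o | a.1 ∈ S ∧ X ∩ Iio a.1 = x a.1}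

/-- The least class of sets `A` such that there are thin sets `B i` (`i ∈ I`) and sets `e t` with:
every regular `t ∈ A` below `o` is an accumulation point of `e t` and, for some `i ∈ I` below `t`,
all regular accumulation points of `e t` below `t` lie in `B i`; and for club many singular `α`
there are at most `|α|` sets `e t ∩ α` with `t ∈ A` regular, `α < t < o` and `α` an accumulation
point of `e t`. -/
inductive Thin (o : Ordinal.{u}) : Set Ordinal.{u} → Prop
  | mk (A I : Set Ordinal.{u}) (B e : Ordinal.{u} → Set Ordinal.{u})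
      (hB : ∀ i ∈ I, Thin o (B i))
      (he : ∀ t ∈ A, t < o → IsReg t →
        Accum t (e t) ∧ ∃ i ∈ I, i < t ∧ ∀ s < t, IsReg s → Accum s (e t) → s ∈ B i)
      (hn : ∃ E, Club o E ∧ ∀ α ∈ E, α < o → IsSing α →
        #{Z : Set Ordinal.{u} | ∃ t ∈ A, α < t ∧ t < o ∧ IsReg t ∧ Accum α (e t) ∧
          Z = e t ∩ Iio α} ≤ #(Iio α)) :
      Thin o A

end Pool.Agent.DiaSing
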